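import Mathlib
import Pool.Agent.helper8.GP.Plates

set_option autoImplicit false

/-!
# The number of geometric permutations of lines grows like `n^(2d-3)`, not like `n^(d-1)`

Problem MP_25490b_co asks whether `g_1^d(n) = Θ(n^(d-1))` for every fixed `d ≥ 3`, where `g_1^d(n)`
is the largest number of geometric permutations (orders, up to reversal, in which line
transversals meet the members) of a family of `n` pairwise disjoint convex sets in `ℝ^d`.

The answer is no, in every dimension `d ≥ 3`: `g_1^d(n) ≥ c_d * n ^ (2 d - 3)`, which matches the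
known upper bound `O(n ^ (2 d - 3) log n)` up to the logarithm.

Idea in `ℝ³`.  The lines `ℓ_s = {(x, s x, s)}` are the lines of one ruling of the quadric `y = x z`.
Let `A_a` be the convex hull of the points of `ℓ_s` with `x = a + s`, and `B_b` the convex hull of
the points of `ℓ_s` with `x = b - s` (`s` in a finite set `S`).  The sets `A_a` lie in the parallel
planes `x - z = a`, the sets `B_b` in the parallel planes `x + z = b`.  With `p = (a + b) / 2` and
`q = (b - a) / 2` the function `y - q x - p z + p q` equals `(x - p) (s - q)` on `ℓ_s`, so it is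
`(s - q)² > 0` at the points of `A_a` and `- (s - q)² < 0` at the points of `B_b`: the sets are
pairwise disjoint.  They are all met by every line `ℓ_s`, and `A_a`, `B_b` change their order at
`s = q`: `2 m` sets have `m² + 1` orders along this one-parameter family of lines.  Finally `m`
huge thin plates cut the remaining direction parameter into `m + 1` parts, which gives
`(m² + 1) (m + 1)` orders for `3 m` sets in `ℝ³`.

In higher dimensions we iterate the first step (`GoodH.block`): given lines `x ↦ (x, a + x b)` in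
`ℝ × V` all of whose slopes `b` lie in the kernel of a functional `ρ`, we change the slopes by
`η s w` (`ρ w = 1`, `η` tiny), so that far away, near `x = L`, the rescaled functional `ρ / (η L)`
has value `≈ s` on the lines, and put a copy of the above configuration there, using one new
coordinate `y = s (x - L)`.  The new slopes lie in the kernel of `ρ - η y`.
-/

namespace Pool.Agent.Results.MP_25490b_co.ThetaConjectureFails

open Filter Asymptotics Pool.Agent.helper8.GP

/-- Euclidean space `ℝ^d` -/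
abbrev E (d : ℕ) : Type := EuclideanSpace ℝ (Fin d)

/-- `A` is a family of `n` pairwise disjoint compact convex sets in `ℝ^d`. -/
structure IsDisjointConvexFamily {d n : ℕ} (A : Fin n → Set (E d)) : Prop where
  compact : ∀ i, IsCompact (A i)
  convex : ∀ i, Convex ℝ (A i)
  disjoint : ∀ i j, i ≠ j → Disjoint (A i) (A j)

/-- The line `{p + t v : t ∈ ℝ}` (`v ≠ 0`) is a transversal of the family `A` and, traversed in
direction `v`, it meets the members in the order `A (σ 0), A (σ 1), …, A (σ (n - 1))`. -/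
def MeetsInOrder {d n : ℕ} (A : Fin n → Set (E d)) (p v : E d) (σ : Equiv.Perm (Fin n)) : Prop :=
  v ≠ 0 ∧ ∃ t : Fin n → ℝ, (∀ i, p + t i • v ∈ A i) ∧ StrictMono (fun k => t (σ k))

/-- The geometric permutations of the family `A`: the unordered pairs consisting of an order
`σ` in which some line transversal meets the family and of the reverse order
`k ↦ σ (n - 1 - k)`. -/
def geometricPermutations {d n : ℕ} (A : Fin n → Set (E d)) : Set (Sym2 (Equiv.Perm (Fin n))) :=
  {g | ∃ (p v : E d) (σ : Equiv.Perm (Fin n)),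
    MeetsInOrder A p v σ ∧ g = s(σ, Fin.revPerm.trans σ)}

/-- `g_1^d(n)`: the largest number of geometric permutations of a family of `n` pairwise disjoint
compact convex sets in `ℝ^d` (by `bddAbove_count` below this is a supremum of a bounded set of
natural numbers, so a maximum). -/
noncomputable def g1 (d n : ℕ) : ℕ :=
  sSup {N : ℕ | ∃ A : Fin n → Set (E d),
    IsDisjointConvexFamily A ∧ (geometricPermutations A).ncard = N}

theorem bddAbove_count (d n : ℕ) : BddAbove {N : ℕ | ∃ A : Fin n → Set (E d),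
    IsDisjointConvexFamily A ∧ (geometricPermutations A).ncard = N} := by
  refine ⟨Nat.card (Sym2 (Equiv.Perm (Fin n))), ?_⟩
  rintro N ⟨A, -, rfl⟩
  exact Set.ncard_le_card _

/-! ### The configurations in coordinates -/

/-- a good configuration of `n` point sets on `N` lines of `ℝ^(k+1)` -/
def G (k n N : ℕ) : Prop := Good (Fin k → ℝ) (Fin n) (Fin N)

theorem G_succ {k n N : ℕ} (h : G k n N) : G k (n + 1) N :=
  (Good.option h).reindex (finSuccEquiv n) (Function.Embedding.refl _)

theorem G_mono {k n n' N N' : ℕ} (h : G k n N) (hn : n ≤ n') (hN : N' ≤ N) : G k n' N' := by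
  have h1 : G k n N' := Good.reindex (Equiv.refl _) (Fin.castLEEmb hN) h
  induction n', hn using Nat.le_induction with
  | base => exact h1
  | succ m _ ih => exact G_succ ih

theorem G_of_good {k n N : ℕ} {V ι τ : Type} [AddCommGroup V] [Module ℝ V] [Module.Finite ℝ V]
    [Fintype ι] [Fintype τ] (h : Good V ι τ) (hV : Module.finrank ℝ V = k)
    (hn : Fintype.card ι = n) (hN : Fintype.card τ = N) : G k n N := by
  have e : V ≃ₗ[ℝ] (Fin k → ℝ) := LinearEquiv.ofFinrankEq V (Fin k → ℝ) (by simp [hV])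
  have h1 := Good.equiv e h
  have e1 : Fin n ≃ ι := (Fintype.equivFinOfCardEq hn).symm
  have e2 : Fin N ≃ τ := (Fintype.equivFinOfCardEq hN).symm
  exact h1.reindex e1 e2.toEmbedding

/-- a good configuration with hypothesis (H) -/
def GH (k n N : ℕ) : Prop := GoodH (Fin k → ℝ) (Fin n) (Fin N)

theorem GH_base : GH 1 1 1 := by
  refine ⟨fun _ _ => 0, fun _ => 0, fun _ => 0, LinearMap.proj 0, fun _ => 1, ?_, ?_, ?_, ?_⟩
  · simp
  · simp
  · intro i j h
    exact absurd (Subsingleton.elim i j) h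
  · intro t t' h
    exact absurd (Subsingleton.elim t t') h

theorem GH_block {k n N : ℕ} (m : ℕ) (h : GH k n N) :
    GH (k + 1) (n + 2 * m) (N * (m * m + 1)) := by
  have h1 := GoodH.block m h
  have e : ((Fin k → ℝ) × ℝ) ≃ₗ[ℝ] (Fin (k + 1) → ℝ) :=
    LinearEquiv.ofFinrankEq _ _ (by simp)
  have e1 : Fin (n + 2 * m) ≃ (Fin n ⊕ (Fin m ⊕ Fin m)) :=
    (Fintype.equivFinOfCardEq (by simp; ring)).symm
  have e2 : Fin (N * (m * m + 1)) ≃ (Fin N × Fin (m * m + 1)) :=
    (Fintype.equivFinOfCardEq (by simp)).symm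
  exact (GoodH.equiv e h1).reindex e1 e2.toEmbedding

theorem GH_main (m : ℕ) : ∀ K : ℕ, GH (K + 1) (1 + 2 * m * K) ((m * m + 1) ^ K)
  | 0 => by simpa using GH_base
  | K + 1 => by
    have h1 := GH_block m (GH_main m K)
    have e1 : 1 + 2 * m * K + 2 * m = 1 + 2 * m * (K + 1) := by ring
    have e2 : (m * m + 1) ^ K * (m * m + 1) = (m * m + 1) ^ (K + 1) := by ring
    rwa [e1, e2] at h1

theorem G_plates {k n N : ℕ} (m : ℕ) (hn : 1 ≤ n) (h : GH k n N) :
    G k (n + m) (N * (m + 1)) := by
  refine G_of_good (GoodH.plates ⟨0, hn⟩ m h) ?_ ?_ ?_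
  · simp
  · simp
  · simp

/-- `2 (K + 1) m` sets in `ℝ^(K+2)` with `m ^ (2 K + 1)` orders -/
theorem G_main (m : ℕ) (hm : 1 ≤ m) (K : ℕ) : G (K + 1) (2 * (K + 1) * m) (m ^ (2 * K + 1)) := by
  have h1 := G_plates m (by omega) (GH_main m K)
  refine G_mono h1 ?_ ?_
  · nlinarith
  · calc m ^ (2 * K + 1) = (m * m) ^ K * m := by rw [pow_succ, pow_mul, pow_two]
      _ ≤ (m * m + 1) ^ K * (m + 1) := by
          gcongr <;> omega

/-! ### From configurations to families of convex sets -/

theorem le_g1 {k n N : ℕ} (h : G k n N) : N ≤ 2 * g1 (k + 1) n := by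
  obtain ⟨x, a, b, h1, h2⟩ := h
  -- coordinates
  have e : (ℝ × (Fin k → ℝ)) ≃ₗ[ℝ] E (k + 1) :=
    LinearEquiv.ofFinrankEq _ _ (by simp [add_comm])
  -- the sets
  set A : Fin n → Set (E (k + 1)) := fun i =>
    convexHull ℝ (Set.range fun t : Fin N => e (pt x a b t i)) with hA
  have hmem : ∀ t i, e (pt x a b t i) ∈ A i := fun t i =>
    subset_convexHull ℝ _ (Set.mem_range_self t)
  have hfam : IsDisjointConvexFamily A := by
    refine ⟨fun i => ?_, fun i => convex_convexHull ℝ _, fun i j hij => ?_⟩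
    · exact (Set.finite_range _).isCompact_convexHull ℝ
    · obtain ⟨f, c, hf1, hf2⟩ := h1 i j hij
      set F : E (k + 1) →ₗ[ℝ] ℝ := f ∘ₗ e.symm.toLinearMap with hF
      have hi : A i ⊆ {y | F y < c} := by
        refine convexHull_min ?_ (convex_halfSpace_lt F.isLinear c)
        rintro _ ⟨t, rfl⟩
        simpa [hF] using hf1 t
      have hj : A j ⊆ {y | c < F y} := by
        refine convexHull_min ?_ (convex_halfSpace_gt F.isLinear c)
        rintro _ ⟨t, rfl⟩
        simpa [hF] using hf2 t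
      rw [Set.disjoint_left]
      intro y hy1 hy2
      have a1 : F y < c := hi hy1
      have a2 : c < F y := hj hy2
      exact absurd a1 (not_lt.mpr a2.le)
  -- positions on one line are distinct
  have hinj : ∀ t, Function.Injective (x t) := by
    intro t i j hij
    by_contra hne
    obtain ⟨f, c, hf1, hf2⟩ := h1 i j hne
    have h3 : pt x a b t i = pt x a b t j := by
      simp only [pt, hij]
    have h4 := hf1 t
    have h5 := hf2 t
    rw [h3] at h4
    exact absurd h4 (not_lt.mpr h5.le)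
  -- the orders
  set σ : Fin N → Equiv.Perm (Fin n) := fun t => Tuple.sort (x t) with hσ
  have hmono : ∀ t, StrictMono (fun k => x t (σ t k)) := by
    intro t
    have h3 : Monotone (x t ∘ σ t) := Tuple.monotone_sort (x t)
    exact h3.strictMono_of_injective ((hinj t).comp (σ t).injective)
  have hσinj : Function.Injective σ := by
    intro t t' htt
    by_contra hne
    obtain ⟨i, j, hi, hj⟩ := h2 t t' hne
    have h3 := hmono t
    have h4 := hmono t'
    have h5 : (σ t).symm i < (σ t).symm j := by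
      apply h3.lt_iff_lt.mp
      simpa using hi
    have h6 : (σ t').symm j < (σ t').symm i := by
      apply h4.lt_iff_lt.mp
      simpa using hj
    rw [htt] at h5
    exact absurd h5 (not_lt.mpr h6.le)
  have hmeets : ∀ t, MeetsInOrder A (e (0, a t)) (e (1, b t)) (σ t) := by
    intro t
    refine ⟨?_, x t, fun i => ?_, hmono t⟩
    · intro h0
      have h3 : ((1 : ℝ), b t) = 0 := by
        rw [← map_zero e] at h0
        exact e.injective h0
      have h4 := congrArg Prod.fst h3
      simp at h4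
    · have h3 : e (0, a t) + x t i • e (1, b t) = e (pt x a b t i) := by
        rw [← map_smul, ← map_add]
        simp [pt]
      rw [h3]
      exact hmem t i
  -- count
  set φ : Fin N → Sym2 (Equiv.Perm (Fin n)) := fun t => s(σ t, Fin.revPerm.trans (σ t)) with hφ
  have hφmem : ∀ t, φ t ∈ geometricPermutations A := fun t =>
    ⟨e (0, a t), e (1, b t), σ t, hmeets t, rfl⟩
  classical
  have hcard : N ≤ 2 * (Finset.univ.image φ).card := by
    have := Finset.card_le_mul_card_image (f := φ) (Finset.univ : Finset (Fin N)) 2 ?_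
    · simpa using this
    · intro g hg
      obtain ⟨t₀, -, rfl⟩ := Finset.mem_image.mp hg
      have h3 : (Finset.univ.filter fun t => φ t = φ t₀).image σ ⊆
          {σ t₀, Fin.revPerm.trans (σ t₀)} := by
        intro τ hτ
        obtain ⟨t, ht, rfl⟩ := Finset.mem_image.mp hτ
        have h4 : φ t = φ t₀ := (Finset.mem_filter.mp ht).2
        have h5 : σ t ∈ φ t₀ := by
          rw [← h4]
          exact Sym2.mem_mk_left _ _
        simpa [hφ] using h5
      calc (Finset.univ.filter fun t => φ t = φ t₀).card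
          = ((Finset.univ.filter fun t => φ t = φ t₀).image σ).card :=
            (Finset.card_image_of_injective _ hσinj).symm
        _ ≤ ({σ t₀, Fin.revPerm.trans (σ t₀)} : Finset _).card := Finset.card_le_card h3
        _ ≤ 2 := Finset.card_le_two
  have hsub : ((Finset.univ.image φ : Finset _) : Set (Sym2 (Equiv.Perm (Fin n)))) ⊆
      geometricPermutations A := by
    intro g hg
    obtain ⟨t, -, rfl⟩ := Finset.mem_image.mp (Finset.mem_coe.mp hg)
    exact hφmem t
  have h3 : (Finset.univ.image φ).card ≤ (geometricPermutations A).ncard := by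
    rw [← Set.ncard_coe_finset]
    exact Set.ncard_le_ncard hsub (Set.toFinite _)
  have h4 : (geometricPermutations A).ncard ≤ g1 (k + 1) n :=
    le_csSup (bddAbove_count (k + 1) n) ⟨A, hfam, rfl⟩
  omega

/-! ### The main theorem -/

/-- `g_1^d(n) ≥ c n ^ (2 d - 3)` for every `d ≥ 2` -/
theorem lower_bound (d : ℕ) (hd : 2 ≤ d) :
    ∃ c : ℝ, 0 < c ∧ ∃ n₀ : ℕ, ∀ n : ℕ, n₀ ≤ n →
      c * (n : ℝ) ^ (2 * d - 3) ≤ g1 d n := by
  obtain ⟨K, rfl⟩ : ∃ K, d = K + 1 + 1 := ⟨d - 2, by omega⟩
  obtain ⟨r, hr⟩ : ∃ r, r = 2 * K + 1 := ⟨_, rfl⟩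
  have hr' : 2 * (K + 1 + 1) - 3 = r := by omega
  rw [hr']
  obtain ⟨k, hk⟩ : ∃ k, k = K + 1 := ⟨_, rfl⟩
  rw [← hk]
  have hk1 : 1 ≤ k := by omega
  refine ⟨1 / (2 * (4 * (k : ℝ)) ^ r), by positivity, 2 * k, ?_⟩
  intro n hn
  set m := n / (2 * k) with hm
  have hkpos : 0 < 2 * k := by omega
  have hm1 : 1 ≤ m := (Nat.one_le_div_iff hkpos).mpr hn
  have h1 : G k n (m ^ r) := by
    have h0 := G_main m hm1 K
    rw [← hk, ← hr] at h0
    refine G_mono h0 ?_ le_rfl
    exact Nat.mul_div_le n (2 * k)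
  have h2 := le_g1 h1
  have h3 : ((m ^ r : ℕ) : ℝ) ≤ 2 * (g1 (k + 1) n : ℝ) := by exact_mod_cast h2
  -- n ≤ 4 k m
  have h4 : n ≤ 4 * k * m := by
    have h5 : n < 2 * k * (m + 1) := Nat.lt_mul_div_succ n hkpos
    nlinarith
  have h5 : (n : ℝ) ≤ 4 * k * m := by exact_mod_cast h4
  have h6 : (n : ℝ) ^ r ≤ (4 * k) ^ r * (m : ℝ) ^ r := by
    rw [← mul_pow]
    exact pow_le_pow_left₀ (by positivity) h5 r
  have h7 : (0 : ℝ) < (4 * (k : ℝ)) ^ r := by positivity
  push_cast at h3
  rw [div_mul_eq_mul_div, one_mul, div_le_iff₀ (by positivity)]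
  calc (n : ℝ) ^ r ≤ (4 * k) ^ r * (m : ℝ) ^ r := h6
    _ ≤ (4 * k) ^ r * (2 * (g1 (k + 1) n : ℝ)) := by gcongr
    _ = (g1 (k + 1) n : ℝ) * (2 * (4 * (k : ℝ)) ^ r) := by ring

/-- **The conjecture `g_1^d(n) = Θ(n^(d-1))` fails in every dimension `d ≥ 3`**:
`g_1^d(n) ≥ c n^(2d-3)`. -/
theorem result (d : ℕ) (hd : 3 ≤ d) :
    (∃ c : ℝ, 0 < c ∧ ∃ n₀ : ℕ, ∀ n : ℕ, n₀ ≤ n →
      c * (n : ℝ) ^ (2 * d - 3) ≤ g1 d n) ∧
    Tendsto (fun n : ℕ => (g1 d n : ℝ) / (n : ℝ) ^ (d - 1)) atTop atTop ∧
    ¬ ((fun n : ℕ => (g1 d n : ℝ)) =Θ[atTop] fun n : ℕ => (n : ℝ) ^ (d - 1)) := by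
  have hlow := lower_bound d (by omega)
  have htend : Tendsto (fun n : ℕ => (g1 d n : ℝ) / (n : ℝ) ^ (d - 1)) atTop atTop := by
    obtain ⟨c, hc, n₀, h⟩ := hlow
    have h1 : Tendsto (fun n : ℕ => c * (n : ℝ)) atTop atTop :=
      Tendsto.const_mul_atTop hc tendsto_natCast_atTop_atTop
    refine tendsto_atTop_mono' atTop ?_ h1
    filter_upwards [eventually_ge_atTop n₀, eventually_ge_atTop 1] with n hn hn1
    have hn1' : (1 : ℝ) ≤ n := by exact_mod_cast hn1
    have h2 := h n hn
    have h3 : (n : ℝ) ^ d ≤ (n : ℝ) ^ (2 * d - 3) :=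
      pow_le_pow_right₀ hn1' (by omega)
    have h4 : (0 : ℝ) < (n : ℝ) ^ (d - 1) := by positivity
    rw [le_div_iff₀ h4]
    calc c * (n : ℝ) * (n : ℝ) ^ (d - 1) = c * (n : ℝ) ^ (d - 1 + 1) := by ring
      _ = c * (n : ℝ) ^ d := by rw [Nat.sub_add_cancel (by omega)]
      _ ≤ c * (n : ℝ) ^ (2 * d - 3) := by gcongr
      _ ≤ g1 d n := h2
  refine ⟨hlow, htend, ?_⟩
  intro hΘ
  obtain ⟨C, hC⟩ := hΘ.1.bound
  have h1 := htend.eventually (eventually_gt_atTop C)
  obtain ⟨n, hn1, hn2, hn3⟩ := (h1.and (hC.and (eventually_ge_atTop 1))).exists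
  have hn3' : (1 : ℝ) ≤ n := by exact_mod_cast hn3
  have h4 : (0 : ℝ) < (n : ℝ) ^ (d - 1) := by positivity
  rw [lt_div_iff₀ h4] at hn1
  rw [Real.norm_of_nonneg (by positivity), Real.norm_of_nonneg h4.le] at hn2
  linarith

end Pool.Agent.Results.MP_25490b_co.ThetaConjectureFails
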